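import Mathlib
import Pool.Agent.H126R2.CDC.Defs

set_option autoImplicit false

/-!
Faithful circuit covers of weights divisible by `k`, and subdivisions of the Petersen graph.
-/

namespace Pool.Agent.W51.FCC

open Pool.Agent.H126R2.CDC (MGraph)

/-- The edge cut of the vertex set `X`: the edges with exactly one end in `X`. -/
def cut {V E : Type} [Fintype V] [DecidableEq V] [Fintype E] [DecidableEq E] (G : MGraph V E)
    (X : Finset V) : Finset E :=
  Finset.univ.filter (fun e => (∃ v ∈ G.ends e, v ∈ X) ∧ ∃ v ∈ G.ends e, v ∉ X)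

/-- `w` is admissible: in every edge cut `T` no edge `e` of `T` has a weight larger than the sum
of the weights of the other edges of `T`. -/
def Admissible {V E : Type} [Fintype V] [DecidableEq V] [Fintype E] [DecidableEq E]
    (G : MGraph V E) (w : E → ℕ) : Prop :=
  ∀ X : Finset V, ∀ e ∈ cut G X, w e ≤ ∑ f ∈ (cut G X).erase e, w f

/-- `w` is eulerian: every edge cut has even weight. -/
def Eulerian {V E : Type} [Fintype V] [DecidableEq V] [Fintype E] [DecidableEq E]
    (G : MGraph V E) (w : E → ℕ) : Prop :=
  ∀ X : Finset V, Even (∑ e ∈ cut G X, w e)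

/-- `(G, w)` has a faithful circuit cover. -/
def HasCover {V E : Type} [Fintype V] [DecidableEq V] [Fintype E] [DecidableEq E]
    (G : MGraph V E) (w : E → ℕ) : Prop :=
  ∃ F : Multiset (Finset E), (∀ C ∈ F, G.IsCircuit C) ∧ ∀ e, F.countP (fun C => e ∈ C) = w e

/-- Property `P_k`: every admissible eulerian weight with values in the multiples of `k` has a
faithful circuit cover. -/
def PropertyP (k : ℕ) {V E : Type} [Fintype V] [DecidableEq V] [Fintype E] [DecidableEq E]
    (G : MGraph V E) : Prop :=
  ∀ w : E → ℕ, (∀ e, k ∣ w e) → Admissible G w → Eulerian G w → HasCover G w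

/-- First ends of the fifteen edges of the Petersen graph: the edges `0, …, 4` form the outer
pentagon on the vertices `0, …, 4`, the edges `5, …, 9` are the spokes, the edges `10, …, 14` form
the inner pentagon on the vertices `5, …, 9`. -/
def pa : Fin 15 → Fin 10 := ![0, 1, 2, 3, 4, 0, 1, 2, 3, 4, 5, 6, 7, 8, 9]

/-- Second ends of the edges of the Petersen graph. -/
def pb : Fin 15 → Fin 10 := ![1, 2, 3, 4, 0, 5, 6, 7, 8, 9, 7, 8, 9, 5, 6]

/-- A subdivision of the Petersen graph in `G`: branch vertices `br a`, and for every edge `j` of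
the Petersen graph a path with the vertices `vx j 0, …, vx j (len j + 1)` and the edges
`ed j 0, …, ed j (len j)` between the branch vertices of the ends of `j`; the paths have no common
inner vertices, and no inner vertex of a path is a branch vertex. -/
structure PetersenSubdivision {V E : Type} (G : MGraph V E) where
  br : Fin 10 → V
  len : Fin 15 → ℕ
  vx : Fin 15 → ℕ → V
  ed : Fin 15 → ℕ → E
  start : ∀ j, vx j 0 = br (pa j)
  stop : ∀ j, vx j (len j + 1) = br (pb j)
  ends : ∀ j i, i ≤ len j → G.ends (ed j i) = s(vx j i, vx j (i + 1))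
  br_inj : Function.Injective br
  inner_ne : ∀ j i a, 1 ≤ i → i ≤ len j → vx j i ≠ br a
  inner_inj : ∀ j i j' i', 1 ≤ i → i ≤ len j → 1 ≤ i' → i' ≤ len j' → vx j i = vx j' i' →
    j = j' ∧ i = i'
  ed_inj : ∀ j i j' i', i ≤ len j → i' ≤ len j' → ed j i = ed j' i' → j = j' ∧ i = i'

end Pool.Agent.W51.FCC
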