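import Mathlib
import Pool.Agent.W51.FCC.Defs

set_option autoImplicit false

namespace Pool.Agent.W51.FCC

open Pool.Agent.H126R2.CDC (MGraph)
open Finset

/-- The weight on the Petersen graph: one on the two pentagons, two on the spokes. -/
def w0 : Fin 15 → ℕ := ![1, 1, 1, 1, 1, 2, 2, 2, 2, 2, 1, 1, 1, 1, 1]

variable {V E : Type} [Fintype V] [DecidableEq V] [Fintype E] [DecidableEq E]

/-! ### parity of the number of changes of a sequence -/

lemma change_parity (f : ℕ → Prop) [DecidablePred f] (n : ℕ) :
    ((range n).filter (fun i => ¬ (f i ↔ f (i + 1)))).card % 2 = if (f 0 ↔ f n) then 0 else 1 := by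
  induction n with
  | zero => simp
  | succ n ih =>
    rw [Finset.range_add_one, Finset.filter_insert]
    by_cases h : (f n ↔ f (n + 1))
    · rw [if_neg (not_not.2 h), ih]
      by_cases h0 : (f 0 ↔ f n)
      · rw [if_pos h0, if_pos (h0.trans h)]
      · rw [if_neg h0, if_neg (fun hh => h0 (hh.trans h.symm))]
    · rw [if_pos h, Finset.card_insert_of_notMem (by simp), Nat.add_mod, ih]
      by_cases h0 : (f 0 ↔ f n)
      · rw [if_pos h0, if_neg (fun hh => h (h0.symm.trans hh))]
      · rw [if_neg h0, if_pos (by tauto)]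

/-! ### multisets -/

lemma sum_ind {α : Type} (F : Multiset α) (p : α → Prop) [DecidablePred p] :
    (F.map (fun C => if p C then 1 else 0)).sum = F.countP p := by
  induction F using Multiset.induction_on with
  | empty => simp
  | cons a F ih =>
    by_cases h : p a
    · simp [h, ih, add_comm]
    · simp [h, ih]

lemma eq_of_sum_eq {α : Type} (F : Multiset α) (f g : α → ℕ) (hle : ∀ C ∈ F, f C ≤ g C)
    (hs : (F.map f).sum = (F.map g).sum) : ∀ C ∈ F, f C = g C := by
  induction F using Multiset.induction_on with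
  | empty => intro C hC; exact absurd hC (Multiset.notMem_zero C)
  | cons a F ih =>
    have h1 : f a ≤ g a := hle a (Multiset.mem_cons_self a F)
    have h2 : (F.map f).sum ≤ (F.map g).sum :=
      Multiset.sum_map_le_sum_map f g (fun C hC => hle C (Multiset.mem_cons_of_mem hC))
    rw [Multiset.map_cons, Multiset.sum_cons, Multiset.map_cons, Multiset.sum_cons] at hs
    intro C hC
    rcases Multiset.mem_cons.1 hC with rfl | hC
    · omega
    · exact ih (fun C hC => hle C (Multiset.mem_cons_of_mem hC)) (by omega) C hC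

lemma dvd_sum {α : Type} (F : Multiset α) (f : α → ℕ) (h : ∀ C ∈ F, 4 ∣ f C) :
    4 ∣ (F.map f).sum := by
  apply Multiset.dvd_sum
  intro x hx
  obtain ⟨C, hC, rfl⟩ := Multiset.mem_map.1 hx
  exact h C hC

/-! ### the weight -/

section weight

variable (G : MGraph V E) (S : PetersenSubdivision G) (k : ℕ)

/-- The weight on `G`. -/
def wt : E → ℕ := fun e =>
  ∑ j, ∑ i ∈ range (S.len j + 1), if S.ed j i = e then k * w0 j else 0

lemma wt_ed (j : Fin 15) (i : ℕ) (hi : i ≤ S.len j) : wt G S k (S.ed j i) = k * w0 j := by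
  unfold wt
  rw [Finset.sum_eq_single j]
  · rw [Finset.sum_eq_single i]
    · rw [if_pos rfl]
    · intro i' hi' hne
      rw [if_neg]
      intro h
      exact hne (S.ed_inj j i' j i (by rw [mem_range] at hi'; omega) hi h).2
    · intro h
      exact absurd (mem_range.2 (by omega)) h
  · intro j' _ hne
    refine Finset.sum_eq_zero fun i' hi' => ?_
    rw [if_neg]
    intro h
    exact hne (S.ed_inj j' i' j i (by rw [mem_range] at hi'; omega) hi h).1
  · intro h
    exact absurd (mem_univ j) h

lemma exists_of_wt (e : E) (h : wt G S k e ≠ 0) : ∃ j i, i ≤ S.len j ∧ S.ed j i = e := by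
  by_contra hcon
  push Not at hcon
  apply h
  unfold wt
  refine Finset.sum_eq_zero fun j _ => Finset.sum_eq_zero fun i hi => ?_
  rw [if_neg (hcon j i (by rw [mem_range] at hi; omega))]

lemma dvd_wt (e : E) : k ∣ wt G S k e := by
  unfold wt
  refine Finset.dvd_sum fun j _ => Finset.dvd_sum fun i _ => ?_
  split
  · exact dvd_mul_right _ _
  · exact dvd_zero _

/-- number of edges of the path `j` in the cut -/
def nc (X : Finset V) (j : Fin 15) : ℕ :=
  ((range (S.len j + 1)).filter (fun i => S.ed j i ∈ cut G X)).card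

lemma cut_sum (X : Finset V) :
    ∑ e ∈ cut G X, wt G S k e = k * ∑ j, w0 j * nc G S X j := by
  unfold wt
  rw [Finset.sum_comm, Finset.mul_sum]
  refine Finset.sum_congr rfl fun j _ => ?_
  rw [Finset.sum_comm]
  have : ∀ i ∈ range (S.len j + 1), (∑ e ∈ cut G X, if S.ed j i = e then k * w0 j else 0)
      = if S.ed j i ∈ cut G X then k * w0 j else 0 := by
    intro i _
    rw [Finset.sum_ite_eq]
  rw [Finset.sum_congr rfl this, ← Finset.sum_filter, Finset.sum_const, smul_eq_mul]
  unfold nc
  ring

lemma mem_cut_ed (X : Finset V) (j : Fin 15) (i : ℕ) (hi : i ≤ S.len j) :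
    S.ed j i ∈ cut G X ↔ ¬ (S.vx j i ∈ X ↔ S.vx j (i + 1) ∈ X) := by
  unfold cut
  rw [Finset.mem_filter, S.ends j i hi]
  simp only [Finset.mem_univ, true_and, Sym2.mem_iff, exists_eq_or_imp, exists_eq_left]
  tauto

lemma nc_parity (X : Finset V) (j : Fin 15) :
    nc G S X j % 2 = if (S.br (pa j) ∈ X ↔ S.br (pb j) ∈ X) then 0 else 1 := by
  have h := change_parity (fun i => S.vx j i ∈ X) (S.len j + 1)
  rw [S.start, S.stop] at h
  rw [← h]
  unfold nc
  congr 2
  apply Finset.filter_congr
  intro i hi
  exact mem_cut_ed G S X j i (by rw [mem_range] at hi; omega)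

/-- the fact on the Petersen graph: even number of pentagon edges in a cut -/
lemma pet_even : ∀ b : Fin 10 → Bool,
    (∑ j, w0 j * (if b (pa j) = b (pb j) then 0 else 1)) % 2 = 0 := by
  decide +kernel

/-- the weight on the Petersen graph is admissible -/
lemma pet_adm : ∀ b : Fin 10 → Bool, ∀ j, b (pa j) ≠ b (pb j) →
    2 * w0 j ≤ ∑ j, w0 j * (if b (pa j) = b (pb j) then 0 else 1) := by
  decide +kernel

end weight

end Pool.Agent.W51.FCC
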