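import Mathlib
import Pool.Agent.W51.FCC.Cover

set_option autoImplicit false

namespace Pool.Agent.W51.FCC

open Pool.Agent.H126R2.CDC (MGraph)
open Finset

variable {V E : Type} [Fintype V] [DecidableEq V] [Fintype E] [DecidableEq E]
variable (G : MGraph V E) (S : PetersenSubdivision G) (k : ℕ)

lemma wt_adm : Admissible G (wt G S k) := by
  intro X e he
  have h1 := Finset.add_sum_erase (cut G X) (wt G S k) he
  by_cases hw : wt G S k e = 0
  · rw [hw]; exact Nat.zero_le _
  · obtain ⟨j, i, hi, rfl⟩ := exists_of_wt G S k e hw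
    rw [cut_sum, wt_ed G S k j i hi] at h1
    rw [wt_ed G S k j i hi]
    have key : 2 * w0 j ≤ ∑ j, w0 j * nc G S X j := by
      by_cases hb : (S.br (pa j) ∈ X ↔ S.br (pb j) ∈ X)
      · have hp := nc_parity G S X j
        rw [if_pos hb] at hp
        have hpos : 0 < nc G S X j := by
          unfold nc
          exact Finset.card_pos.2 ⟨i, Finset.mem_filter.2 ⟨mem_range.2 (by omega), he⟩⟩
        have h2 : 2 ≤ nc G S X j := by omega
        calc 2 * w0 j ≤ w0 j * nc G S X j := by nlinarith
          _ ≤ ∑ j, w0 j * nc G S X j :=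
            Finset.single_le_sum (f := fun j => w0 j * nc G S X j)
              (fun _ _ => Nat.zero_le _) (mem_univ j)
      · have h3 := pet_adm (fun a => decide (S.br a ∈ X)) j (by
          simpa [decide_eq_decide] using hb)
        refine h3.trans (Finset.sum_le_sum fun j' _ => Nat.mul_le_mul_left _ ?_)
        have hp := nc_parity G S X j'
        by_cases hb' : (S.br (pa j') ∈ X ↔ S.br (pb j') ∈ X)
        · rw [if_pos (by simpa [decide_eq_decide] using hb')]
          exact Nat.zero_le _
        · rw [if_neg (by simpa [decide_eq_decide] using hb')]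
          rw [if_neg hb'] at hp
          omega
    have h4 : k * (2 * w0 j) ≤ k * ∑ j, w0 j * nc G S X j := Nat.mul_le_mul_left _ key
    have h5 : k * (2 * w0 j) = k * w0 j + k * w0 j := by ring
    omega

lemma wt_eul : Eulerian G (wt G S k) := by
  intro X
  rw [cut_sum]
  apply Even.mul_left
  rw [Nat.even_iff, Finset.sum_nat_mod]
  have h := pet_even (fun a => decide (S.br a ∈ X))
  rw [Finset.sum_nat_mod] at h
  rw [← h]
  congr 1
  refine Finset.sum_congr rfl fun j _ => ?_
  rw [Nat.mul_mod, nc_parity G S X j]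
  by_cases hb : (S.br (pa j) ∈ X ↔ S.br (pb j) ∈ X)
  · rw [if_pos hb, if_pos (by simpa [decide_eq_decide] using hb)]
    simp
  · rw [if_neg hb, if_neg (by simpa [decide_eq_decide] using hb)]
    simp

/-! ### circuits on the subdivision -/

lemma pa_ne_pb : ∀ j, pa j ≠ pb j := by decide

variable {G} in
lemma vx_inner {j : Fin 15} {i : ℕ} (h1 : 1 ≤ i) (h2 : i ≤ S.len j) {j' : Fin 15} {i' : ℕ}
    (h3 : i' ≤ S.len j' + 1) (h : S.vx j' i' = S.vx j i) : j' = j ∧ i' = i := by
  by_cases h4 : i' = 0
  · subst h4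
    rw [S.start] at h
    exact absurd h.symm (S.inner_ne j i _ h1 h2)
  · by_cases h5 : i' = S.len j' + 1
    · subst h5
      rw [S.stop] at h
      exact absurd h.symm (S.inner_ne j i _ h1 h2)
    · exact S.inner_inj j' i' j i (by omega) (by omega) h1 h2 h

variable {G} in
lemma vx_ne (j : Fin 15) (i : ℕ) (hi : i ≤ S.len j) : S.vx j i ≠ S.vx j (i + 1) := by
  intro h
  by_cases h0 : 1 ≤ i
  · have := (vx_inner S h0 hi (by omega) h.symm).2
    omega
  · have hi0 : i = 0 := by omega
    subst hi0
    by_cases h1 : 1 ≤ S.len j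
    · have := (vx_inner S (le_refl 1) h1 (by omega) h).2
      omega
    · have hl : S.len j = 0 := by omega
      have h2 := S.stop j
      rw [hl] at h2
      rw [h2, S.start] at h
      exact pa_ne_pb j (S.br_inj h)

section circ

variable {G} {C : Finset E} (hC : ∀ e ∈ C, ∃ j i, i ≤ S.len j ∧ S.ed j i = e)
  (hdeg : ∀ v, G.deg C v = 0 ∨ G.deg C v = 2)

include hC

lemma no_loop (v : V) : (C.filter fun e => G.ends e = s(v, v)) = ∅ := by
  apply Finset.filter_eq_empty_iff.2
  intro e he h
  obtain ⟨j, i, hi, rfl⟩ := hC e he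
  rw [S.ends j i hi, Sym2.eq_iff] at h
  have := vx_ne S j i hi
  rcases h with ⟨h1, h2⟩ | ⟨h1, h2⟩ <;> exact this (h1.trans h2.symm)

lemma deg_eq (v : V) : G.deg C v = (C.filter fun e => v ∈ G.ends e).card := by
  unfold MGraph.deg
  rw [no_loop S hC v]
  simp

include hdeg in
lemma step (j : Fin 15) (i : ℕ) (h2 : i + 1 ≤ S.len j) :
    S.ed j (i + 1) ∈ C ↔ S.ed j i ∈ C := by
  have hd := hdeg (S.vx j (i + 1))
  rw [deg_eq S hC] at hd
  have hne : S.ed j i ≠ S.ed j (i + 1) := by
    intro h
    have := (S.ed_inj j i j (i + 1) (by omega) h2 h).2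
    omega
  have hf : (C.filter fun e => S.vx j (i + 1) ∈ G.ends e)
      = ({S.ed j i, S.ed j (i + 1)} : Finset E).filter (· ∈ C) := by
    ext e
    simp only [Finset.mem_filter, Finset.mem_insert, Finset.mem_singleton]
    constructor
    · rintro ⟨he, hv⟩
      refine ⟨?_, he⟩
      obtain ⟨j', i', hi', rfl⟩ := hC e he
      rw [S.ends j' i' hi', Sym2.mem_iff] at hv
      rcases hv with hv | hv
      · obtain ⟨rfl, rfl⟩ := vx_inner S (by omega) h2 (by omega) hv.symm
        right; rfl
      · obtain ⟨rfl, hh⟩ := vx_inner S (by omega) h2 (by omega) hv.symm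
        left
        have : i' = i := by omega
        rw [this]
    · rintro ⟨rfl | rfl, he⟩
      · refine ⟨he, ?_⟩
        rw [S.ends j i (by omega), Sym2.mem_iff]
        right; rfl
      · refine ⟨he, ?_⟩
        rw [S.ends j (i + 1) h2, Sym2.mem_iff]
        left; rfl
  rw [hf, Finset.filter_insert, Finset.filter_singleton] at hd
  by_cases ha : S.ed j i ∈ C <;> by_cases hb : S.ed j (i + 1) ∈ C
  · simp [ha, hb]
  · rw [if_pos ha, if_neg hb] at hd
    simp at hd
  · rw [if_neg ha, if_pos hb] at hd
    simp at hd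
  · simp [ha, hb]

include hdeg in
lemma all_or_none (j : Fin 15) (i : ℕ) (hi : i ≤ S.len j) : S.ed j i ∈ C ↔ S.ed j 0 ∈ C := by
  induction i with
  | zero => rfl
  | succ i ih => rw [step S hC hdeg j i hi, ih (by omega)]

include hdeg in
lemma deg_br (a : Fin 10) :
    G.deg C (S.br a) = ∑ j, if pa j = a ∨ pb j = a then (if S.ed j 0 ∈ C then 1 else 0) else 0 := by
  rw [deg_eq S hC]
  have hf : (C.filter fun e => S.br a ∈ G.ends e)
      = ((univ : Finset (Fin 15)).filter (fun j => (pa j = a ∨ pb j = a) ∧ S.ed j 0 ∈ C)).image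
        (fun j => if pa j = a then S.ed j 0 else S.ed j (S.len j)) := by
    ext e
    simp only [Finset.mem_filter, Finset.mem_image, Finset.mem_univ, true_and]
    constructor
    · rintro ⟨he, hv⟩
      obtain ⟨j, i, hi, rfl⟩ := hC e he
      rw [S.ends j i hi, Sym2.mem_iff] at hv
      have h0 := (all_or_none S hC hdeg j i hi).1 he
      rcases hv with hv | hv
      · by_cases hi0 : i = 0
        · subst hi0
          rw [S.start] at hv
          have := S.br_inj hv
          exact ⟨j, ⟨Or.inl this.symm, h0⟩, by rw [if_pos this.symm]⟩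
        · exact absurd hv.symm (S.inner_ne j i a (by omega) hi)
      · by_cases hil : i = S.len j
        · subst hil
          rw [S.stop] at hv
          have := S.br_inj hv
          refine ⟨j, ⟨Or.inr this.symm, h0⟩, ?_⟩
          rw [if_neg]
          intro hpa
          exact pa_ne_pb j (hpa.trans this)
        · exact absurd hv.symm (S.inner_ne j (i + 1) a (by omega) (by omega))
    · rintro ⟨j, ⟨hab, h0⟩, rfl⟩
      by_cases hpa : pa j = a
      · rw [if_pos hpa]
        refine ⟨h0, ?_⟩
        rw [S.ends j 0 (by omega), Sym2.mem_iff, S.start, hpa]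
        left; rfl
      · rw [if_neg hpa]
        refine ⟨(all_or_none S hC hdeg j _ le_rfl).2 h0, ?_⟩
        have hpb : pb j = a := hab.resolve_left hpa
        rw [S.ends j _ le_rfl, Sym2.mem_iff, S.stop, hpb]
        right; rfl
  rw [hf, Finset.card_image_of_injOn]
  · rw [Finset.card_filter]
    refine Finset.sum_congr rfl fun j _ => ?_
    by_cases h1 : (pa j = a ∨ pb j = a) <;> by_cases h2 : S.ed j 0 ∈ C <;> simp [h1, h2]
  · intro j _ j' _ h
    simp only at h
    have : ∀ j, ∃ i, i ≤ S.len j ∧ (if pa j = a then S.ed j 0 else S.ed j (S.len j)) = S.ed j i := by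
      intro j
      by_cases hp : pa j = a
      · exact ⟨0, by omega, by rw [if_pos hp]⟩
      · exact ⟨S.len j, le_rfl, by rw [if_neg hp]⟩
    obtain ⟨i, hi, h3⟩ := this j
    obtain ⟨i', hi', h4⟩ := this j'
    rw [h3, h4] at h
    exact (S.ed_inj j i j' i' hi hi' h).1

end circ

end Pool.Agent.W51.FCC
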