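import Mathlib
import Pool.Agent.W51.FCC.Main

set_option autoImplicit false

namespace Pool.Agent.W51.FCC

open Pool.Agent.H126R2.CDC (MGraph)
open Finset

/-- The index of the spoke at the vertex `a`. -/
def sp : Fin 10 → Fin 15 := ![5, 6, 7, 8, 9, 5, 6, 7, 8, 9]

/-- First rim edge at `a`. -/
def r1 : Fin 10 → Fin 15 := ![0, 1, 2, 3, 4, 10, 11, 12, 13, 14]

/-- Second rim edge at `a`. -/
def r2 : Fin 10 → Fin 15 := ![4, 0, 1, 2, 3, 13, 14, 10, 11, 12]

lemma deg_fun (x : Fin 15 → ℕ) : ∀ a : Fin 10,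
    (∑ j, if pa j = a ∨ pb j = a then x j else 0) = x (sp a) + x (r1 a) + x (r2 a) := by
  intro a
  have h : (univ : Finset (Fin 15)).filter (fun j => pa j = a ∨ pb j = a) = {sp a, r1 a, r2 a} := by
    revert a; decide
  have h1 : sp a ≠ r1 a ∧ sp a ≠ r2 a ∧ r1 a ≠ r2 a := by
    revert a; decide
  rw [← Finset.sum_filter, h, Finset.sum_insert (by simp [h1.1, h1.2.1]),
    Finset.sum_pair h1.2.2]
  ring

lemma four_dvd (x : Fin 15 → ℕ) (h1 : ∀ j, x j ≤ 1) (h : ∀ a, x (sp a) = x (r1 a) + x (r2 a)) :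
    4 ∣ x 5 + x 6 + x 7 + x 8 + x 9 := by
  have a0 : x 5 = x 0 + x 4 := h 0
  have a1 : x 6 = x 1 + x 0 := h 1
  have a2 : x 7 = x 2 + x 1 := h 2
  have a3 : x 8 = x 3 + x 2 := h 3
  have a4 : x 9 = x 4 + x 3 := h 4
  have a5 : x 5 = x 10 + x 13 := h 5
  have a6 : x 6 = x 11 + x 14 := h 6
  have a7 : x 7 = x 12 + x 10 := h 7
  have a8 : x 8 = x 13 + x 11 := h 8
  have a9 : x 9 = x 14 + x 12 := h 9
  have b5 := h1 5
  have b6 := h1 6
  have b7 := h1 7
  have b8 := h1 8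
  have b9 := h1 9
  have c0 : x 0 = 0 ∨ x 0 = 1 := by have := h1 0; omega
  have c1 : x 1 = 0 ∨ x 1 = 1 := by have := h1 1; omega
  have c2 : x 2 = 0 ∨ x 2 = 1 := by have := h1 2; omega
  have c3 : x 3 = 0 ∨ x 3 = 1 := by have := h1 3; omega
  have c4 : x 4 = 0 ∨ x 4 = 1 := by have := h1 4; omega
  rcases c0 with c0 | c0 <;> rcases c1 with c1 | c1 <;> rcases c2 with c2 | c2 <;>
    rcases c3 with c3 | c3 <;> rcases c4 with c4 | c4 <;> omega

variable {V E : Type} [Fintype V] [DecidableEq V] [Fintype E] [DecidableEq E]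
variable (G : MGraph V E) (S : PetersenSubdivision G) (k : ℕ)

theorem no_cover (hk : Odd k) : ¬ HasCover G (wt G S k) := by
  rintro ⟨F, hF, hcov⟩
  have hC : ∀ C ∈ F, ∀ e ∈ C, ∃ j i, i ≤ S.len j ∧ S.ed j i = e := by
    intro C hCF e he
    apply exists_of_wt G S k e
    rw [← hcov e]
    exact (Multiset.countP_pos.2 ⟨C, hCF, he⟩).ne'
  let x : Fin 15 → Finset E → ℕ := fun j C => if S.ed j 0 ∈ C then 1 else 0
  have hsum : ∀ j, (F.map (x j)).sum = k * w0 j := by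
    intro j
    rw [← wt_ed G S k j 0 (Nat.zero_le _), ← hcov, ← sum_ind]
  have hx1 : ∀ C j, x j C ≤ 1 := by
    intro C j
    show (if S.ed j 0 ∈ C then 1 else 0) ≤ 1
    split <;> omega
  have hdeg : ∀ C ∈ F, ∀ a, x (sp a) C + x (r1 a) C + x (r2 a) C = 0 ∨
      x (sp a) C + x (r1 a) C + x (r2 a) C = 2 := by
    intro C hCF a
    have h := (hF C hCF).2.1 (S.br a)
    rw [deg_br S (hC C hCF) (hF C hCF).2.1 a, deg_fun (fun j => x j C) a] at h
    exact h
  have hle : ∀ a, ∀ C ∈ F, x (sp a) C ≤ x (r1 a) C + x (r2 a) C := by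
    intro a C hCF
    have h := hdeg C hCF a
    have h1 := hx1 C (sp a)
    omega
  have heq : ∀ a, ∀ C ∈ F, x (sp a) C = x (r1 a) C + x (r2 a) C := by
    intro a
    refine eq_of_sum_eq F (x (sp a)) (fun C => x (r1 a) C + x (r2 a) C) (hle a) ?_
    rw [Multiset.sum_map_add, hsum, hsum, hsum]
    have : w0 (sp a) = w0 (r1 a) + w0 (r2 a) := by revert a; decide
    rw [this]; ring
  have h4 : ∀ C ∈ F, 4 ∣ x 5 C + x 6 C + x 7 C + x 8 C + x 9 C := fun C hCF =>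
    four_dvd (fun j => x j C) (hx1 C) (fun a => heq a C hCF)
  have h5 := dvd_sum F _ h4
  rw [Multiset.sum_map_add, Multiset.sum_map_add, Multiset.sum_map_add, Multiset.sum_map_add,
    hsum, hsum, hsum, hsum, hsum] at h5
  have e5 : w0 5 = 2 := rfl
  have e6 : w0 6 = 2 := rfl
  have e7 : w0 7 = 2 := rfl
  have e8 : w0 8 = 2 := rfl
  have e9 : w0 9 = 2 := rfl
  rw [e5, e6, e7, e8, e9] at h5
  obtain ⟨m, rfl⟩ := hk
  omega

theorem not_propertyP (hk : Odd k) (hS : Nonempty (PetersenSubdivision G)) : ¬ PropertyP k G := by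
  intro h
  obtain ⟨S⟩ := hS
  exact no_cover G S k hk (h _ (dvd_wt G S k) (wt_adm G S k) (wt_eul G S k))

end Pool.Agent.W51.FCC
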